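import Mathlib

/-!
# `IR_b / Γ_b` over connected bipartite graphs

The supremum of `IR_b(G)/Γ_b(G)` over connected bipartite graphs with at least two vertices is
exactly `2`, and it is not attained.
-/

namespace Pool.Agent.Results.MP_1867c4_co.BipartiteTwo

open SimpleGraph Finset

section defs

variable {V : Type} [Fintype V] (G : SimpleGraph V)

/-- Eccentricity. -/
noncomputable def ecc (v : V) : ℕ := univ.sup (fun u => G.dist v u)

/-- Diameter. -/
noncomputable def diameter : ℕ := univ.sup (fun v => ecc G v)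

/-- Broadcasts: `f v ∈ {0, …, diam}` and `f v ≤ e(v)`. -/
def IsBroadcast (f : V → ℕ) : Prop := ∀ v, f v ≤ diameter G ∧ f v ≤ ecc G v

/-- The cost of a broadcast. -/
def cost (f : V → ℕ) : ℕ := ∑ v, f v

/-- `u` hears `f` from `v`. -/
def Hears (f : V → ℕ) (u v : V) : Prop := 0 < f v ∧ G.dist u v ≤ f v

/-- Dominating broadcasts. -/
def Dominating (f : V → ℕ) : Prop := IsBroadcast G f ∧ ∀ u, ∃ v, Hears G f u v

/-- Minimal dominating broadcasts. -/
def MinDominating (f : V → ℕ) : Prop :=
  Dominating G f ∧ ∀ g, IsBroadcast G g → g ≤ f → g ≠ f → ¬ Dominating G g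

/-- The broadcast `f_v^-`. -/
noncomputable def fminus (f : V → ℕ) (v : V) : V → ℕ := by
  classical exact Function.update f v (f v - 1)

/-- Private boundary of `v`. -/
def PB (f : V → ℕ) (v : V) : Set V :=
  {u | G.dist u v ≤ f v ∧ ∀ w, ¬ Hears G (fminus f v) u w}

/-- Irredundant broadcasts. -/
def Irredundant (f : V → ℕ) : Prop := IsBroadcast G f ∧ ∀ v, 0 < f v → (PB G f v).Nonempty

/-- Upper broadcast number. -/
noncomputable def Gammab : ℕ := sSup {c | ∃ f : V → ℕ, MinDominating G f ∧ cost f = c}

/-- Upper broadcast irredundance number. -/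
noncomputable def IRb : ℕ := sSup {c | ∃ f : V → ℕ, Irredundant G f ∧ cost f = c}

end defs

/-- The set of all ratios `IR_b(G)/Γ_b(G)` over finite connected bipartite graphs with at least two
vertices. -/
def Ratios : Set ℝ :=
  {r | ∃ (V : Type) (_ : Fintype V) (_ : Nontrivial V) (G : SimpleGraph V),
    G.Connected ∧ G.IsBipartite ∧ r = (IRb G : ℝ) / (Gammab G : ℝ)}

section general

variable {V : Type} [Fintype V] {G : SimpleGraph V}

omit [Fintype V] in
theorem fminus_self (f : V → ℕ) (v : V) : fminus f v v = f v - 1 := by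
  simp [fminus]

omit [Fintype V] in
theorem fminus_ne (f : V → ℕ) (v w : V) (h : w ≠ v) : fminus f v w = f w := by
  simp [fminus, h]

omit [Fintype V] in
theorem fminus_le (f : V → ℕ) (v w : V) : fminus f v w ≤ f w := by
  by_cases h : w = v
  · subst h; rw [fminus_self]; omega
  · rw [fminus_ne _ _ _ h]

theorem dist_le_ecc (u v : V) : G.dist u v ≤ ecc G v := by
  rw [G.dist_comm]
  exact Finset.le_sup (f := fun u => G.dist v u) (mem_univ u)

theorem ecc_le_diam (v : V) : ecc G v ≤ diameter G :=
  Finset.le_sup (f := fun v => ecc G v) (mem_univ v)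

theorem ecc_pos [Nontrivial V] (hc : G.Connected) (v : V) : 0 < ecc G v := by
  obtain ⟨u, hu⟩ := exists_ne v
  have h1 := dist_le_ecc (G := G) u v
  have h2 := hc.pos_dist_of_ne hu
  omega

omit [Fintype V] in
theorem dist_one {u v : V} (h : G.Adj u v) : G.dist u v ≤ 1 := by
  have := G.dist_le h.toWalk
  simpa using this

/-- A minimal dominating broadcast is irredundant. -/
theorem irr_of_min {f : V → ℕ} (hf : MinDominating G f) : Irredundant G f := by
  refine ⟨hf.1.1, ?_⟩
  intro v hv
  have hbc : IsBroadcast G (fminus f v) := fun w =>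
    ⟨le_trans (fminus_le f v w) (hf.1.1 w).1, le_trans (fminus_le f v w) (hf.1.1 w).2⟩
  have hne : fminus f v ≠ f := by
    intro h
    have := congrFun h v
    rw [fminus_self] at this
    omega
  have hnot := hf.2 (fminus f v) hbc (fminus_le f v) hne
  have hex : ∃ u, ∀ w, ¬ Hears G (fminus f v) u w := by
    by_contra hcon
    push Not at hcon
    exact hnot ⟨hbc, hcon⟩
  obtain ⟨u, hu⟩ := hex
  obtain ⟨w, hw⟩ := hf.1.2 u
  by_cases hwv : w = v
  · subst hwv
    exact ⟨u, hw.2, hu⟩
  · exfalso
    apply hu w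
    unfold Hears
    rw [fminus_ne _ _ _ hwv]
    exact hw

/-- Choice of private boundary vertices. -/
theorem private_choice {f : V → ℕ} (hf : Irredundant G f) (hc : G.Connected) :
    ∃ p : V → V, ∀ v, 0 < f v → G.dist (p v) v ≤ f v ∧
      (∀ w, w ≠ v → 0 < f w → f w < G.dist (p v) w) ∧
      (G.dist (p v) v = f v ∨ (f v = 1 ∧ p v = v)) := by
  have h : ∀ v, ∃ u, 0 < f v → G.dist u v ≤ f v ∧
      (∀ w, w ≠ v → 0 < f w → f w < G.dist u w) ∧ (G.dist u v = f v ∨ (f v = 1 ∧ u = v)) := by
    intro v
    by_cases hv : 0 < f v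
    · obtain ⟨u, hu1, hu2⟩ := hf.2 v hv
      refine ⟨u, fun _ => ⟨hu1, ?_, ?_⟩⟩
      · intro w hwv hw
        by_contra hle
        push Not at hle
        apply hu2 w
        unfold Hears
        rw [fminus_ne _ _ _ hwv]
        exact ⟨hw, hle⟩
      · have h1 := hu2 v
        unfold Hears at h1
        rw [fminus_self] at h1
        by_cases h1' : f v = 1
        · by_cases hd : G.dist u v = 0
          · right
            exact ⟨h1', (hc.dist_eq_zero_iff).1 hd⟩
          · left; omega
        · left
          by_contra hne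
          apply h1
          exact ⟨by omega, by omega⟩
    · exact ⟨v, fun h => absurd h hv⟩
  choose p hp using h
  exact ⟨p, hp⟩

/-- Costs of irredundant broadcasts are less than the number of vertices. -/
theorem cost_lt_card [Nontrivial V] (hc : G.Connected) {f : V → ℕ} (hf : Irredundant G f) :
    cost f < Fintype.card V := by
  classical
  obtain ⟨p, hp⟩ := private_choice hf hc
  have hw : ∀ v, ∃ w : G.Walk v (p v), w.IsPath ∧ w.length = G.dist v (p v) := by
    intro v
    obtain ⟨w, hw⟩ := hc.exists_walk_length_eq_dist v (p v)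
    exact ⟨w, w.isPath_of_length_eq_dist hw, hw⟩
  choose w hwp hwl using hw
  let P : Finset V := univ.filter (fun v => 0 < f v)
  have hPmem : ∀ v, v ∈ P ↔ 0 < f v := by intro v; simp [P]
  let Q : V → Finset V := fun v => (w v).support.toFinset
  have hQcard : ∀ v, (Q v).card = G.dist v (p v) + 1 := by
    intro v
    show ((w v).support.toFinset).card = _
    rw [List.toFinset_card_of_nodup (hwp v).support_nodup, Walk.length_support, hwl]
  have hQmem : ∀ v x, x ∈ Q v → G.dist v x + G.dist x (p v) = G.dist v (p v) := by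
    intro v x hx
    have hx' : x ∈ (w v).support := by simpa [Q] using hx
    have h1 := G.dist_le ((w v).takeUntil x hx')
    have h2 := G.dist_le ((w v).dropUntil x hx')
    have h3 : ((w v).takeUntil x hx').length + ((w v).dropUntil x hx').length = (w v).length := by
      rw [← Walk.length_append, (w v).take_spec hx']
    have h4 := hc.dist_triangle (u := v) (v := x) (w := p v)
    have h5 := hwl v
    omega
  have hdisj : ∀ v ∈ P, ∀ u ∈ P, v ≠ u → Disjoint (Q v) (Q u) := by
    intro v hv u hu hne
    rw [Finset.disjoint_left]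
    intro x hxv hxu
    have hv0 := (hPmem v).1 hv
    have hu0 := (hPmem u).1 hu
    obtain ⟨a1, a2, _⟩ := hp v hv0
    obtain ⟨b1, b2, _⟩ := hp u hu0
    have c1 := a2 u hne.symm hu0
    have c2 := b2 v hne hv0
    have d1 := hQmem v x hxv
    have d2 := hQmem u x hxu
    have e1 := hc.dist_triangle (u := u) (v := x) (w := p v)
    have e2 := hc.dist_triangle (u := v) (v := x) (w := p u)
    rw [G.dist_comm] at a1 b1 c1 c2
    omega
  have hle : ∀ v ∈ P, f v ≤ (Q v).card := by
    intro v hv
    obtain ⟨_, _, h3⟩ := hp v ((hPmem v).1 hv)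
    rw [hQcard v]
    rw [G.dist_comm] at h3
    omega
  have hcost : cost f = ∑ v ∈ P, f v := by
    unfold cost
    rw [Finset.sum_filter]
    apply Finset.sum_congr rfl
    intro v _
    by_cases h : 0 < f v
    · rw [if_pos h]
    · rw [if_neg h]; omega
  have hsum : ∑ v ∈ P, (Q v).card ≤ Fintype.card V := by
    rw [← Finset.card_biUnion hdisj]
    exact Finset.card_le_univ _
  by_cases hstrict : ∃ v ∈ P, f v < (Q v).card
  · obtain ⟨v, hv, hlt⟩ := hstrict
    have : ∑ v ∈ P, f v < ∑ v ∈ P, (Q v).card := Finset.sum_lt_sum hle ⟨v, hv, hlt⟩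
    omega
  · push Not at hstrict
    -- every broadcasting vertex has strength one and is its own private boundary
    have hself : ∀ v ∈ P, f v = 1 ∧ p v = v := by
      intro v hv
      obtain ⟨_, _, h3⟩ := hp v ((hPmem v).1 hv)
      rcases h3 with h3 | h3
      · have h4 := hstrict v hv
        rw [hQcard v] at h4
        rw [G.dist_comm] at h3
        omega
      · exact h3
    have hcost2 : cost f = P.card := by
      rw [hcost, Finset.card_eq_sum_ones]
      exact Finset.sum_congr rfl fun v hv => (hself v hv).1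
    rw [hcost2]
    have hex : ∃ x, x ∉ P := by
      by_contra hall
      push Not at hall
      obtain ⟨v, _⟩ := exists_pair_ne V
      obtain ⟨u, hu⟩ := hc.preconnected.exists_adj_of_nontrivial v
      obtain ⟨_, h2, _⟩ := hp v ((hPmem v).1 (hall v))
      have h3 := h2 u (G.ne_of_adj hu).symm ((hPmem u).1 (hall u))
      rw [(hself v (hall v)).2] at h3
      have h4 := dist_one hu
      have h5 := (hself u (hall u)).1
      omega
    obtain ⟨x, hx⟩ := hex
    exact Finset.card_lt_univ_of_notMem hx

theorem cost_le (f : V → ℕ) (hf : IsBroadcast G f) : cost f ≤ Fintype.card V * diameter G := by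
  unfold cost
  calc ∑ v, f v ≤ ∑ _v : V, diameter G := Finset.sum_le_sum fun v _ => (hf v).1
    _ = Fintype.card V * diameter G := by simp

theorem bdd_gamma : BddAbove {c | ∃ f : V → ℕ, MinDominating G f ∧ cost f = c} := by
  refine ⟨Fintype.card V * diameter G, ?_⟩
  rintro c ⟨f, hf, rfl⟩
  exact cost_le f hf.1.1

theorem bdd_IR : BddAbove {c | ∃ f : V → ℕ, Irredundant G f ∧ cost f = c} := by
  refine ⟨Fintype.card V * diameter G, ?_⟩
  rintro c ⟨f, hf, rfl⟩
  exact cost_le f hf.1

theorem IRb_lt [Nontrivial V] (hc : G.Connected) : IRb G < Fintype.card V := by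
  have hpos : 0 < Fintype.card V := Fintype.card_pos
  have : IRb G ≤ Fintype.card V - 1 := by
    unfold IRb
    apply csSup_le'
    rintro c ⟨f, hf, rfl⟩
    have := cost_lt_card hc hf
    omega
  omega

/-- Large maximal independent sets give large minimal dominating broadcasts. -/
theorem card_le_Gammab [Nontrivial V] (hc : G.Connected) (C : Finset V)
    (hC : ∀ a ∈ C, ∀ b ∈ C, ¬ G.Adj a b) : C.card ≤ Gammab G := by
  classical
  obtain ⟨I, hI, hmax⟩ := Finset.exists_max_image
    ((Finset.univ : Finset (Finset V)).filter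
      (fun I => C ⊆ I ∧ ∀ a ∈ I, ∀ b ∈ I, ¬ G.Adj a b)) Finset.card ⟨C, by simp; exact hC⟩
  rw [Finset.mem_filter] at hI
  obtain ⟨_, hCI, hind⟩ := hI
  have hdomI : ∀ u, u ∉ I → ∃ v ∈ I, G.Adj u v := by
    intro u hu
    by_contra hno
    push Not at hno
    have h1 := hmax (insert u I) (by
      rw [Finset.mem_filter]
      refine ⟨mem_univ _, fun x hx => mem_insert_of_mem (hCI hx), ?_⟩
      intro a ha b hb
      rcases Finset.mem_insert.1 ha with ha1 | ha1
      · rcases Finset.mem_insert.1 hb with hb1 | hb1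
        · rw [ha1, hb1]; exact G.irrefl
        · rw [ha1]; exact hno b hb1
      · rcases Finset.mem_insert.1 hb with hb1 | hb1
        · intro h; rw [hb1] at h; exact hno a ha1 h.symm
        · exact hind a ha1 b hb1)
    rw [card_insert_of_notMem hu] at h1
    omega
  let f : V → ℕ := fun v => if v ∈ I then 1 else 0
  have hbc : IsBroadcast G f := by
    intro v
    have h1 := ecc_pos hc v
    have h2 := ecc_le_diam (G := G) v
    have h3 : f v ≤ 1 := by simp only [f]; split <;> omega
    exact ⟨by omega, by omega⟩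
  have hdom : Dominating G f := by
    refine ⟨hbc, ?_⟩
    intro u
    by_cases hu : u ∈ I
    · exact ⟨u, by simp [f, hu], by simp⟩
    · obtain ⟨v, hv, hadj⟩ := hdomI u hu
      exact ⟨v, by simp [f, hv], by simp only [f, if_pos hv]; exact dist_one hadj⟩
  have hmin : MinDominating G f := by
    refine ⟨hdom, ?_⟩
    intro g _ hgf hne hgd
    have hex : ∃ v, g v ≠ f v := by
      by_contra hall
      push Not at hall
      exact hne (funext hall)
    obtain ⟨v, hv⟩ := hex
    have hlt : g v < f v := lt_of_le_of_ne (hgf v) hv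
    have hvI : v ∈ I := by
      by_contra h
      simp [f, h] at hlt
    have hgv : g v = 0 := by
      simp only [f, if_pos hvI] at hlt
      omega
    obtain ⟨w, hw1, hw2⟩ := hgd.2 v
    have hgw := hgf w
    have hwI : w ∈ I := by
      by_contra h
      simp only [f, if_neg h] at hgw
      omega
    simp only [f, if_pos hwI] at hgw
    have hwv : w ≠ v := by rintro rfl; omega
    have hd : G.dist v w = 1 := by
      have := hc.pos_dist_of_ne hwv.symm
      omega
    exact hind v hvI w hwI (dist_eq_one_iff_adj.1 hd)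
  have hcost : cost f = I.card := by simp [cost, f]
  have h1 : cost f ≤ Gammab G := le_csSup bdd_gamma ⟨f, hmin, rfl⟩
  have h2 := Finset.card_le_card hCI
  omega

theorem half_le_Gammab [Nontrivial V] (hc : G.Connected) (hb : G.IsBipartite) :
    Fintype.card V ≤ 2 * Gammab G := by
  classical
  obtain ⟨c⟩ := hb
  have h : ∀ i : Fin 2, (univ.filter (fun v => c v = i)).card ≤ Gammab G := by
    intro i
    apply card_le_Gammab hc
    intro a ha b hb hab
    have h1 := (Finset.mem_filter.1 ha).2
    have h2 := (Finset.mem_filter.1 hb).2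
    exact c.valid hab (h1.trans h2.symm)
  have h3 : Fintype.card V = (univ.filter (fun v => c v = 0)).card +
      (univ.filter (fun v => c v = 1)).card := by
    rw [← Finset.card_univ, ← Finset.card_filter_add_card_filter_not (fun v => c v = 0)]
    congr 2
    ext v
    simp only [Finset.mem_filter, Finset.mem_univ, true_and]
    have : c v = 0 ∨ c v = 1 := by omega
    constructor
    · intro h; rcases this with h' | h'
      · exact absurd h' h
      · exact h'
    · intro h h'
      rw [h'] at h
      exact absurd h (by decide)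
  have := h 0
  have := h 1
  omega

end general

/-! ### The construction -/

section construction

variable (m k : ℕ)

/-- Vertices: a class, a column (or `none`), and a level. -/
abbrev Vx : Type := Bool × Option (Fin m) × Fin (k + 1)

/-- The graph. -/
def GG : SimpleGraph (Vx m k) where
  Adj x y := (x.2.2 = y.2.2 ∧ x.1 ≠ y.1) ∨
    (x.1 = y.1 ∧ x.2.1 = y.2.1 ∧ x.2.1 ≠ none ∧
      (x.2.2.val + 1 = y.2.2.val ∨ y.2.2.val + 1 = x.2.2.val))
  symm := ⟨fun x y h => by
    rcases h with ⟨h1, h2⟩ | ⟨h1, h2, h3, h4⟩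
    · exact Or.inl ⟨h1.symm, h2.symm⟩
    · exact Or.inr ⟨h1.symm, h2.symm, h2 ▸ h3, h4.symm⟩⟩
  loopless := ⟨fun x h => by
    rcases h with ⟨_, h2⟩ | ⟨_, _, _, h4⟩
    · exact h2 rfl
    · omega⟩

theorem adj_iff (x y : Vx m k) : (GG m k).Adj x y ↔ (x.2.2 = y.2.2 ∧ x.1 ≠ y.1) ∨
    (x.1 = y.1 ∧ x.2.1 = y.2.1 ∧ x.2.1 ≠ none ∧
      (x.2.2.val + 1 = y.2.2.val ∨ y.2.2.val + 1 = x.2.2.val)) := Iff.rfl

theorem adj_h (b : Bool) (o o' : Option (Fin m)) (j : Fin (k + 1)) :
    (GG m k).Adj (b, o, j) (!b, o', j) := by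
  left
  exact ⟨rfl, by cases b <;> simp⟩

theorem vert_up (b : Bool) (c : Fin m) : ∀ (n : ℕ) (j l : Fin (k + 1)), j.val + n = l.val →
    ∃ p : (GG m k).Walk (b, some c, j) (b, some c, l), p.length = n := by
  intro n
  induction n with
  | zero =>
    intro j l h
    have : j = l := Fin.ext (by omega)
    subst this
    exact ⟨Walk.nil, rfl⟩
  | succ n ih =>
    intro j l h
    have hl := l.2
    obtain ⟨p, hp⟩ := ih ⟨j.val + 1, by omega⟩ l (by simp; omega)
    have hadj : (GG m k).Adj (b, some c, j) (b, some c, ⟨j.val + 1, by omega⟩) := by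
      right
      exact ⟨rfl, rfl, by simp, Or.inl rfl⟩
    exact ⟨Walk.cons hadj p, by simp [hp]⟩

theorem vert (b : Bool) (c : Fin m) (j l : Fin (k + 1)) :
    ∃ p : (GG m k).Walk (b, some c, j) (b, some c, l),
      p.length = (j.val - l.val) + (l.val - j.val) := by
  rcases le_total j.val l.val with h | h
  · obtain ⟨p, hp⟩ := vert_up m k b c (l.val - j.val) j l (by omega)
    exact ⟨p, by omega⟩
  · obtain ⟨p, hp⟩ := vert_up m k b c (j.val - l.val) l j (by omega)
    exact ⟨p.reverse, by rw [Walk.length_reverse]; omega⟩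

/-- within a level. -/
theorem near (x : Vx m k) (b : Bool) (o : Option (Fin m)) :
    ∃ p : (GG m k).Walk x (b, o, x.2.2), p.length ≤ 2 := by
  obtain ⟨b', o', j⟩ := x
  by_cases h : b = !b'
  · subst h
    exact ⟨Walk.cons (adj_h m k b' o' o j) Walk.nil, by simp⟩
  · have h' : b = b' := by cases b <;> cases b' <;> simp_all
    subst h'
    have h1 := adj_h m k b o' o j
    have h2 : (GG m k).Adj (!b, o, j) (b, o, j) := by
      have := adj_h m k (!b) o o j
      rwa [Bool.not_not] at this
    exact ⟨Walk.cons h1 (Walk.cons h2 Walk.nil), by simp⟩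

theorem exists_short (hm : 0 < m) (x y : Vx m k) : ∃ p : (GG m k).Walk x y, p.length ≤ k + 4 := by
  obtain ⟨p1, h1⟩ := near m k x true (some ⟨0, hm⟩)
  obtain ⟨p2, h2⟩ := vert m k true ⟨0, hm⟩ x.2.2 y.2.2
  obtain ⟨p3, h3⟩ := near m k (true, some ⟨0, hm⟩, y.2.2) y.1 y.2.1
  refine ⟨p1.append (p2.append p3), ?_⟩
  rw [Walk.length_append, Walk.length_append]
  have := x.2.2.2
  have := y.2.2.2
  omega

theorem GG_connected (hm : 0 < m) : (GG m k).Connected := by
  have : Nonempty (Vx m k) := ⟨(true, none, 0)⟩
  refine ⟨fun x y => ?_⟩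
  obtain ⟨p, _⟩ := exists_short m k hm x y
  exact ⟨p⟩

theorem dist_le_diam (hm : 0 < m) (x y : Vx m k) : (GG m k).dist x y ≤ k + 4 := by
  obtain ⟨p, hp⟩ := exists_short m k hm x y
  exact le_trans ((GG m k).dist_le p) hp

theorem GG_bipartite : (GG m k).IsBipartite := by
  refine ⟨Coloring.mk (fun x : Vx m k => if (xor x.1 (x.2.2.val % 2 = 1)) then (0 : Fin 2) else 1)
    ?_⟩
  rintro ⟨b, o, j⟩ ⟨b', o', l⟩ h
  rw [adj_iff] at h
  simp only at h ⊢
  rcases h with ⟨h1, h2⟩ | ⟨h1, _, _, h4⟩
  · subst h1
    by_cases hp : j.val % 2 = 1 <;> cases b <;> cases b' <;> simp_all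
  · subst h1
    by_cases hp : j.val % 2 = 1
    · have hq : ¬ l.val % 2 = 1 := by omega
      cases b <;> simp [hp, hq]
    · have hq : l.val % 2 = 1 := by omega
      cases b <;> simp [hp, hq]

/-- potential function -/
def phi (b : Bool) (c : Fin m) (l : Fin (k + 1)) (x : Vx m k) : ℕ :=
  (x.2.2.val - l.val) + (l.val - x.2.2.val) +
    (if x.1 ≠ b then 1 else if x.2.1 = some c then 0 else 2)

theorem phi_lip (b : Bool) (c : Fin m) (l : Fin (k + 1)) (x y : Vx m k)
    (h : (GG m k).Adj x y) : phi m k b c l y ≤ phi m k b c l x + 1 := by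
  obtain ⟨b1, o1, j1⟩ := x
  obtain ⟨b2, o2, j2⟩ := y
  rw [adj_iff] at h
  simp only at h
  unfold phi
  simp only
  rcases h with ⟨h1, h2⟩ | ⟨h1, h2, _, h4⟩
  · subst h1
    by_cases hb : b1 = b
    · subst hb
      have : b2 ≠ b1 := h2.symm
      simp only [this, ne_eq, not_false_eq_true, if_true, not_true_eq_false, if_false]
      split <;> omega
    · have hb2 : b2 = b := by cases b <;> cases b1 <;> cases b2 <;> simp_all
      subst hb2
      simp only [hb, ne_eq, not_false_eq_true, if_true, not_true_eq_false, if_false]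
      split <;> omega
  · subst h1
    subst h2
    omega

theorem phi_walk (b : Bool) (c : Fin m) (l : Fin (k + 1)) {x y : Vx m k}
    (p : (GG m k).Walk x y) : phi m k b c l y ≤ phi m k b c l x + p.length := by
  induction p with
  | nil => simp
  | cons h p ih =>
    have := phi_lip m k b c l _ _ h
    simp only [Walk.length_cons]
    omega

theorem phi_le_dist (hm : 0 < m) (b : Bool) (c : Fin m) (l : Fin (k + 1)) (x : Vx m k) :
    phi m k b c l x ≤ (GG m k).dist (b, some c, l) x := by
  obtain ⟨p, hp⟩ := (GG_connected m k hm).exists_walk_length_eq_dist (b, some c, l) x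
  have h1 := phi_walk m k b c l p
  have h0 : phi m k b c l (b, some c, l) = 0 := by simp [phi]
  omega

theorem dist_same (hm : 0 < m) (b : Bool) (c : Fin m) (j l : Fin (k + 1)) :
    (GG m k).dist (b, some c, l) (b, some c, j) = (j.val - l.val) + (l.val - j.val) := by
  apply le_antisymm
  · obtain ⟨p, hp⟩ := vert m k b c l j
    have := (GG m k).dist_le p
    omega
  · have := phi_le_dist m k hm b c l (b, some c, j)
    simp only [phi, ne_eq, not_true_eq_false, if_false, if_true] at this
    omega

theorem dist_opp_le (b : Bool) (c : Fin m) (o : Option (Fin m)) (j l : Fin (k + 1)) :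
    (GG m k).dist (!b, o, l) (b, some c, j) ≤ (j.val - l.val) + (l.val - j.val) + 1 := by
  obtain ⟨p, hp⟩ := vert m k b c l j
  have h1 : (GG m k).Adj (!b, o, l) (b, some c, l) := (adj_h m k b (some c) o l).symm
  have := (GG m k).dist_le (Walk.cons h1 p)
  simp only [Walk.length_cons] at this
  omega

theorem dist_same_le (b : Bool) (c : Fin m) (o : Option (Fin m)) (j l : Fin (k + 1)) :
    (GG m k).dist (b, o, l) (b, some c, j) ≤ (j.val - l.val) + (l.val - j.val) + 2 := by
  obtain ⟨p, hp⟩ := vert m k b c l j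
  have h1 : (GG m k).Adj (!b, o, l) (b, some c, l) := (adj_h m k b (some c) o l).symm
  have h2 : (GG m k).Adj (b, o, l) (!b, o, l) := adj_h m k b o o l
  have := (GG m k).dist_le (Walk.cons h2 (Walk.cons h1 p))
  simp only [Walk.length_cons] at this
  omega

/-- the twin inequality -/
theorem twin (hm : 0 < m) (b : Bool) (c : Fin m) (l : Fin (k + 1)) (y : Vx m k)
    (hy : y ≠ (b, none, l)) :
    (GG m k).dist (b, some c, l) y ≤ (GG m k).dist (b, none, l) y := by
  obtain ⟨p, hp⟩ := (GG_connected m k hm).exists_walk_length_eq_dist (b, none, l) y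
  cases p with
  | nil => exact absurd rfl hy
  | cons h q =>
    rename_i x
    have h' : (GG m k).Adj (b, some c, l) x := by
      rw [adj_iff] at h ⊢
      rcases h with ⟨h1, h2⟩ | ⟨_, _, h3, _⟩
      · exact Or.inl ⟨h1, h2⟩
      · exact absurd rfl h3
    have := (GG m k).dist_le (Walk.cons h' q)
    simp only [Walk.length_cons] at this hp
    omega

theorem far (hm : 0 < m) (b b' : Bool) (c c' : Fin m) (j l : Fin (k + 1))
    (h : ¬ (b' = b ∧ c' = c)) :
    (GG m k).dist (b, none, l) (b', some c', j) ≤
      (GG m k).dist (b, some c, l) (b', some c', j) := by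
  have h1 := phi_le_dist m k hm b c l (b', some c', j)
  unfold phi at h1
  simp only at h1
  by_cases hb : b' = b
  · subst hb
    have hc : c' ≠ c := fun h' => h ⟨rfl, h'⟩
    have h2 := dist_same_le m k b' c' none j l
    simp only [ne_eq, not_true_eq_false, if_false, Option.some.injEq, hc] at h1
    omega
  · have hb' : b = !b' := by cases b <;> cases b' <;> simp_all
    subst hb'
    have h2 := dist_opp_le m k b' c' none j l
    simp only [ne_eq, hb, not_false_eq_true, if_true] at h1
    omega

/-- Lower bound for `IR_b`. -/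
theorem IR_lower (hm : 0 < m) : 2 * m * k ≤ IRb (GG m k) := by
  let f : Vx m k → ℕ := fun x => if x.2.2 = 0 ∧ x.2.1 ≠ none then k else 0
  have hbr : IsBroadcast (GG m k) f := by
    intro v
    have hle : f v ≤ ecc (GG m k) v := by
      by_cases h : v.2.2 = 0 ∧ v.2.1 ≠ none
      · obtain ⟨b, o, j⟩ := v
        obtain ⟨hj, ho⟩ := h
        simp only at hj ho
        subst hj
        obtain ⟨c, rfl⟩ := Option.ne_none_iff_exists'.1 ho
        have h1 := dist_le_ecc (G := GG m k) (b, some c, Fin.last k) (b, some c, 0)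
        rw [dist_same m k hm] at h1
        simp at h1
        simp only [f]
        simp
        omega
      · simp only [f, if_neg h]
        omega
    exact ⟨le_trans hle (ecc_le_diam v), hle⟩
  have hirr : Irredundant (GG m k) f := by
    refine ⟨hbr, ?_⟩
    intro v hv
    have h : v.2.2 = 0 ∧ v.2.1 ≠ none := by
      by_contra h
      simp [f, if_neg h] at hv
    obtain ⟨b, o, j⟩ := v
    obtain ⟨hj, ho⟩ := h
    simp only at hj ho
    subst hj
    obtain ⟨c, rfl⟩ := Option.ne_none_iff_exists'.1 ho
    have hfv : f (b, some c, 0) = k := by simp [f]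
    refine ⟨(b, some c, Fin.last k), ?_, ?_⟩
    · rw [dist_same m k hm, hfv]
      simp
    · intro w hw
      obtain ⟨hw1, hw2⟩ := hw
      by_cases hwv : w = (b, some c, 0)
      · subst hwv
        rw [fminus_self] at hw1 hw2
        rw [dist_same m k hm] at hw2
        rw [hfv] at hw1 hw2
        simp at hw2
        omega
      · rw [fminus_ne _ _ _ hwv] at hw1 hw2
        have h : w.2.2 = 0 ∧ w.2.1 ≠ none := by
          by_contra h
          simp [f, if_neg h] at hw1
        obtain ⟨b', o', j'⟩ := w
        obtain ⟨hj', ho'⟩ := h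
        simp only at hj' ho'
        subst hj'
        obtain ⟨c', rfl⟩ := Option.ne_none_iff_exists'.1 ho'
        have hfw : f (b', some c', 0) = k := by simp [f]
        rw [hfw] at hw2
        have h1 := phi_le_dist m k hm b c (Fin.last k) (b', some c', 0)
        have h2 : k + 1 ≤ phi m k b c (Fin.last k) (b', some c', 0) := by
          unfold phi
          by_cases hb : b' = b
          · subst hb
            have hc : c' ≠ c := by
              rintro rfl
              exact hwv rfl
            simp [hc]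
          · simp [hb]
        omega
  have hcost : cost f = 2 * m * k := by
    unfold cost
    rw [Fintype.sum_prod_type]
    simp only [Fintype.sum_prod_type, Fintype.sum_option, f]
    simp
    ring
  rw [← hcost]
  exact le_csSup bdd_IR ⟨f, hirr, rfl⟩

/-- levels charged to a broadcasting vertex at level `j` with private boundary at level `l`. -/
def inL (j l t : Fin (k + 1)) : Prop :=
  (j.val < t.val ∧ t.val ≤ l.val) ∨ (l.val ≤ t.val ∧ t.val < j.val) ∨ (j = l ∧ t = l)

instance (j l : Fin (k + 1)) : DecidablePred (inL k j l) := fun t => by unfold inL; infer_instance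

theorem card_inL (j l : Fin (k + 1)) :
    (j.val - l.val) + (l.val - j.val) ≤ (univ.filter (inL k j l)).card ∧
      1 ≤ (univ.filter (inL k j l)).card := by
  rcases lt_trichotomy j l with h | h | h
  · have hsub : Finset.Ioc j l ⊆ univ.filter (inL k j l) := by
      intro t ht
      rw [Finset.mem_Ioc] at ht
      simp only [Finset.mem_filter, Finset.mem_univ, true_and]
      left
      exact ⟨ht.1, ht.2⟩
    have h1 := Finset.card_le_card hsub
    rw [Fin.card_Ioc] at h1
    have : j.val < l.val := h
    omega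
  · subst h
    have hsub : ({j} : Finset (Fin (k + 1))) ⊆ univ.filter (inL k j j) := by
      intro t ht
      rw [Finset.mem_singleton] at ht
      simp only [Finset.mem_filter, Finset.mem_univ, true_and]
      right; right
      exact ⟨rfl, ht⟩
    have h1 := Finset.card_le_card hsub
    rw [Finset.card_singleton] at h1
    omega
  · have hsub : Finset.Ico l j ⊆ univ.filter (inL k j l) := by
      intro t ht
      rw [Finset.mem_Ico] at ht
      simp only [Finset.mem_filter, Finset.mem_univ, true_and]
      right; left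
      exact ⟨ht.1, ht.2⟩
    have h1 := Finset.card_le_card hsub
    rw [Fin.card_Ico] at h1
    have : l.val < j.val := h
    omega

/-- Upper bound for dominating irredundant broadcasts. -/
theorem cost_upper (hm : 0 < m) (g : Vx m k → ℕ) (hg : Irredundant (GG m k) g)
    (hdom : ∀ u, ∃ v, Hears (GG m k) g u v) :
    cost g ≤ m * (k + 1) + 4 * (k + 1) * (k + 4) := by
  classical
  have hc := GG_connected m k hm
  obtain ⟨p, hp⟩ := private_choice hg hc
  -- dominators of the special vertices
  have hy : ∀ (b : Bool) (l : Fin (k + 1)), ∃ y, Hears (GG m k) g (b, none, l) y ∧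
      (y = (b, none, l) → ∀ w, Hears (GG m k) g (b, none, l) w → w = (b, none, l)) := by
    intro b l
    by_cases h : ∃ w, Hears (GG m k) g (b, none, l) w ∧ w ≠ (b, none, l)
    · obtain ⟨w, hw, hne⟩ := h
      exact ⟨w, hw, fun h => absurd h hne⟩
    · push Not at h
      obtain ⟨w, hw⟩ := hdom (b, none, l)
      exact ⟨w, hw, fun _ => h⟩
  choose y hy1 hy2 using hy
  let E : Finset (Vx m k) :=
    (univ.image (fun q : Bool × Fin (k + 1) => y q.1 q.2)) ∪
      (univ.image (fun q : Bool × Fin (k + 1) => ((q.1, none, q.2) : Vx m k)))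
  have hEcard : E.card ≤ 4 * (k + 1) := by
    have h1 : E.card ≤ _ := Finset.card_union_le _ _
    have h2 : (univ.image (fun q : Bool × Fin (k + 1) => y q.1 q.2)).card ≤ 2 * (k + 1) := by
      refine le_trans Finset.card_image_le ?_
      simp
    have h3 : (univ.image (fun q : Bool × Fin (k + 1) => ((q.1, none, q.2) : Vx m k))).card ≤
        2 * (k + 1) := by
      refine le_trans Finset.card_image_le ?_
      simp
    omega
  have hyE : ∀ b l, y b l ∈ E := fun b l =>
    Finset.mem_union_left _ (Finset.mem_image.2 ⟨(b, l), mem_univ _, rfl⟩)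
  have hzE : ∀ b l, ((b, none, l) : Vx m k) ∈ E := fun b l =>
    Finset.mem_union_right _ (Finset.mem_image.2 ⟨(b, l), mem_univ _, rfl⟩)
  -- structure of the non-exceptional broadcasting vertices
  have hstr : ∀ v, v ∉ E → 0 < g v → ∃ b c j l, v = (b, some c, j) ∧ p v = (b, some c, l) ∧
      y (!b) l ≠ (!b, none, l) ∧ y b l = (b, none, l) ∧
      (g v = (j.val - l.val) + (l.val - j.val) ∨ (g v = 1 ∧ j = l)) := by
    intro v hv hgv
    obtain ⟨h1, h2, h3⟩ := hp v hgv
    -- the class and level of the private boundary vertex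
    obtain ⟨b, o, l⟩ : Σ' (_ : Bool) (_ : Option (Fin m)), Fin (k + 1) := ⟨(p v).1, (p v).2.1, (p v).2.2⟩
    have hpv' : True := trivial
    rcases hpv : p v with ⟨b, o, l⟩
    rw [hpv] at h1 h2 h3
    have hyv : ∀ b' l', y b' l' ≠ v := fun b' l' h => hv (h ▸ hyE b' l')
    cases o with
    | none =>
      exfalso
      have h4 := hy1 b l
      have h5 := h2 (y b l) (hyv b l) h4.1
      have h6 := h4.2
      omega
    | some c =>
      have hyb : y b l = (b, none, l) := by
        by_contra hne
        have h4 := hy1 b l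
        have h5 := h2 (y b l) (hyv b l) h4.1
        have h6 := h4.2
        have h7 := twin m k hm b c l (y b l) hne
        omega
      have hyb' : y (!b) l ≠ (!b, none, l) := by
        intro he
        have h4 := hy1 (!b) l
        have h5 := h2 (y (!b) l) (hyv (!b) l) h4.1
        have h6 : (GG m k).dist (b, some c, l) (y (!b) l) ≤ 1 := by
          rw [he]
          exact dist_one (adj_h m k b (some c) none l)
        have h7 := h4.1
        omega
      rcases hvv : v with ⟨b', o', j⟩
      cases o' with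
      | none =>
        exfalso
        apply hv
        rw [hvv]
        exact hzE b' j
      | some c' =>
        have hsame : b' = b ∧ c' = c := by
          by_contra hno
          have h4 := far m k hm b b' c c' j l hno
          have h5 := hy2 b l hyb v ⟨hgv, by rw [hvv] at h1 ⊢; omega⟩
          rw [hvv] at h5
          simp at h5
        obtain ⟨rfl, rfl⟩ := hsame
        refine ⟨b', c', j, l, rfl, rfl, hyb', hyb, ?_⟩
        rw [← hvv]
        rcases h3 with h3 | ⟨h3, h4⟩
        · left
          rw [← h3, hvv, dist_same m k hm]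
        · right
          rw [hvv] at h4
          simp only [Prod.mk.injEq, true_and] at h4
          exact ⟨h3, h4.symm⟩
  let N : Finset (Vx m k) := univ.filter (fun v => v ∉ E ∧ 0 < g v)
  have hN : ∀ v, v ∈ N ↔ v ∉ E ∧ 0 < g v := by intro v; simp [N]
  let L : Vx m k → Finset (Fin m × Fin (k + 1)) := fun v =>
    univ.filter (fun q => v.2.1 = some q.1 ∧ inL k v.2.2 (p v).2.2 q.2)
  have hLcard : ∀ v ∈ N, g v ≤ (L v).card := by
    intro v hv
    obtain ⟨hvE, hgv⟩ := (hN v).1 hv
    obtain ⟨b, c, j, l, hv1, hv2, _, _, hg'⟩ := hstr v hvE hgv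
    have hL : L v = ({c} : Finset (Fin m)) ×ˢ (univ.filter (inL k j l)) := by
      ext ⟨c', t⟩
      simp only [L, hv2, Finset.mem_filter, Finset.mem_univ, true_and, Finset.mem_product,
        Finset.mem_singleton]
      rw [hv1]
      simp only [Option.some.injEq]
      constructor
      · rintro ⟨h1, h2⟩; exact ⟨h1.symm, h2⟩
      · rintro ⟨h1, h2⟩; exact ⟨h1.symm, h2⟩
    rw [hL, Finset.card_product, Finset.card_singleton, one_mul]
    have := card_inL k j l
    omega
  have hdisj : ∀ v ∈ N, ∀ w ∈ N, v ≠ w → Disjoint (L v) (L w) := by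
    intro v hv w hw hne
    rw [Finset.disjoint_left]
    rintro ⟨c0, t⟩ hq1 hq2
    obtain ⟨hvE, hgv⟩ := (hN v).1 hv
    obtain ⟨hwE, hgw⟩ := (hN w).1 hw
    obtain ⟨b, c, j, l, hv1, hv2, hyv1, hyv2, hg1⟩ := hstr v hvE hgv
    obtain ⟨b', c', j', l', hw1, hw2, hyw1, hyw2, hg2⟩ := hstr w hwE hgw
    simp only [L, Finset.mem_filter, Finset.mem_univ, true_and, hv2, hw2] at hq1 hq2
    rw [hv1] at hq1
    rw [hw1] at hq2
    simp only [Option.some.injEq] at hq1 hq2
    obtain ⟨hc1, ht1⟩ := hq1
    obtain ⟨hc2, ht2⟩ := hq2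
    have hcc : c = c' := hc1.trans hc2.symm
    subst hcc
    obtain ⟨_, hpv, _⟩ := hp v hgv
    obtain ⟨_, hpw, _⟩ := hp w hgw
    have e1 := hpv w hne.symm hgw
    have e2 := hpw v hne hgv
    rw [hv2, hw1] at e1
    rw [hw2, hv1] at e2
    rw [← hw1] at e1
    rw [← hv1] at e2
    by_cases hb : b' = b
    · subst hb
      rw [hw1, dist_same m k hm, ← hw1] at e1
      rw [hv1, dist_same m k hm, ← hv1] at e2
      unfold inL at ht1 ht2
      have hjl : ∀ x y : Fin (k + 1), x = y → x.val = y.val := fun x y h => by rw [h]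
      rcases ht1 with h1 | h1 | ⟨h1, h1'⟩ <;> rcases ht2 with h2 | h2 | ⟨h2, h2'⟩ <;>
        rcases hg1 with h3 | ⟨h3, h3'⟩ <;> rcases hg2 with h4 | ⟨h4, h4'⟩ <;>
        subst_vars <;> omega
    · have hb' : b' = !b := by cases b <;> cases b' <;> simp_all
      subst hb'
      have hll : l.val ≠ l'.val := by
        intro h
        have : l = l' := Fin.ext h
        subst this
        exact hyv1 hyw2
      have e3 := dist_opp_le m k (!b) c (some c) j' l
      rw [Bool.not_not] at e3
      have e4 := dist_opp_le m k b c (some c) j l'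
      rw [← hw1] at e3
      rw [← hv1] at e4
      unfold inL at ht1 ht2
      rcases ht1 with h1 | h1 | ⟨h1, h1'⟩ <;> rcases ht2 with h2 | h2 | ⟨h2, h2'⟩ <;>
        rcases hg1 with h3 | ⟨h3, h3'⟩ <;> rcases hg2 with h4 | ⟨h4, h4'⟩ <;>
        subst_vars <;> omega
  have hNsum : ∑ v ∈ N, g v ≤ m * (k + 1) := by
    calc ∑ v ∈ N, g v ≤ ∑ v ∈ N, (L v).card := Finset.sum_le_sum hLcard
      _ = (N.biUnion L).card := (Finset.card_biUnion hdisj).symm
      _ ≤ Fintype.card (Fin m × Fin (k + 1)) := Finset.card_le_univ _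
      _ = m * (k + 1) := by simp
  have hEsum : ∑ v ∈ E, g v ≤ 4 * (k + 1) * (k + 4) := by
    calc ∑ v ∈ E, g v ≤ ∑ _v ∈ E, (k + 4) := by
          apply Finset.sum_le_sum
          intro v _
          refine le_trans (hg.1 v).2 ?_
          unfold ecc
          apply Finset.sup_le
          intro u _
          exact dist_le_diam m k hm v u
      _ = E.card * (k + 4) := by simp
      _ ≤ 4 * (k + 1) * (k + 4) := Nat.mul_le_mul_right _ hEcard
  have hsplit : cost g = ∑ v ∈ E, g v + ∑ v ∈ N, g v := by
    unfold cost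
    rw [← Finset.sum_add_sum_compl E g]
    congr 1
    rw [Finset.sum_filter]
    rw [← Finset.sum_filter_add_sum_filter_not Eᶜ (fun v => 0 < g v)]
    have h0 : ∑ v ∈ Eᶜ.filter (fun v => ¬ 0 < g v), g v = 0 := by
      apply Finset.sum_eq_zero
      intro v hv
      have := (Finset.mem_filter.1 hv).2
      omega
    rw [h0, add_zero, Finset.sum_filter, ← Finset.sum_filter]
    rw [← Finset.sum_filter]
    apply Finset.sum_congr
    · ext v
      simp
    · intros; rfl
  omega

theorem Gammab_upper (hm : 0 < m) :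
    Gammab (GG m k) ≤ m * (k + 1) + 4 * (k + 1) * (k + 4) := by
  unfold Gammab
  apply csSup_le'
  rintro c ⟨g, hg, rfl⟩
  exact cost_upper m k hm g (irr_of_min hg) hg.1.2

end construction

/-- **Main result.**  The supremum of `IR_b(G)/Γ_b(G)` over finite connected bipartite graphs with
at least two vertices is `2`, and it is not attained. -/
theorem result : IsLUB Ratios 2 ∧ (2 : ℝ) ∉ Ratios := by
  have hlt : ∀ r ∈ Ratios, r < 2 := by
    rintro r ⟨V, hF, hN, G, hc, hb, rfl⟩
    have h1 := IRb_lt hc
    have h2 := half_le_Gammab hc hb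
    have hpos : 0 < Gammab G := by omega
    rw [div_lt_iff₀ (by exact_mod_cast hpos)]
    have : IRb G < 2 * Gammab G := by omega
    exact_mod_cast this
  refine ⟨⟨fun r hr => (hlt r hr).le, ?_⟩, fun h => lt_irrefl _ (hlt 2 h)⟩
  intro s hs
  by_contra hlt2
  push Not at hlt2
  -- choose k with 2k/(k+1) > s, then m large
  have hs0 : (0 : ℝ) < 2 - s := by linarith
  obtain ⟨k, hk⟩ := exists_nat_gt (4 / (2 - s))
  have hk1 : 4 < (2 - s) * k := by
    rw [div_lt_iff₀ hs0] at hk
    linarith
  have hkpos : (0 : ℝ) < k := by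
    by_contra h
    push Not at h
    have : (2 - s) * (k : ℝ) ≤ 0 := mul_nonpos_of_nonneg_of_nonpos hs0.le h
    linarith
  let C : ℕ := 4 * (k + 1) * (k + 4)
  obtain ⟨m, hm⟩ := exists_nat_gt ((2 * (C : ℝ)) + 1)
  have hm0 : 0 < m := by
    have : (0 : ℝ) < m := by
      have : (0 : ℝ) ≤ C := Nat.cast_nonneg C
      linarith
    exact_mod_cast this
  have hnt : Nontrivial (Vx m k) := ⟨(true, none, 0), (false, none, 0), by simp⟩
  have hr : (IRb (GG m k) : ℝ) / (Gammab (GG m k) : ℝ) ∈ Ratios :=
    ⟨Vx m k, inferInstance, hnt, GG m k, GG_connected m k hm0, GG_bipartite m k, rfl⟩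
  have h1 := hs hr
  have h2 := IR_lower m k hm0
  have h3 := Gammab_upper m k hm0
  have h4 := half_le_Gammab (GG_connected m k hm0) (GG_bipartite m k)
  have hpos : 0 < Gammab (GG m k) := by
    have : 0 < Fintype.card (Vx m k) := Fintype.card_pos
    omega
  have hposR : (0 : ℝ) < Gammab (GG m k) := by exact_mod_cast hpos
  rw [div_le_iff₀ hposR] at h1
  have h2R : (2 * m * k : ℝ) ≤ IRb (GG m k) := by exact_mod_cast h2
  have h3R : (Gammab (GG m k) : ℝ) ≤ m * (k + 1) + C := by exact_mod_cast h3
  have hmR : (0 : ℝ) < m := by exact_mod_cast hm0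
  have hCR : (0 : ℝ) ≤ C := Nat.cast_nonneg C
  by_cases hsn : s ≤ 0
  · have h5 : s * (Gammab (GG m k) : ℝ) ≤ 0 := mul_nonpos_of_nonpos_of_nonneg hsn hposR.le
    have h6 : (0 : ℝ) < 2 * m * k := by positivity
    linarith
  · push Not at hsn
    have h5 : s * (Gammab (GG m k) : ℝ) ≤ s * (m * (k + 1) + C) :=
      mul_le_mul_of_nonneg_left h3R hsn.le
    have h6 : s * ((m : ℝ) * (k + 1) + C) ≤ s * (m * k) + 2 * m + 2 * C := by
      have h7 : s * (m : ℝ) ≤ 2 * m := mul_le_mul_of_nonneg_right hlt2.le hmR.le
      have h8 : s * (C : ℝ) ≤ 2 * C := mul_le_mul_of_nonneg_right hlt2.le hCR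
      nlinarith
    have h9 : 4 * (m : ℝ) < (2 - s) * k * m := by
      exact mul_lt_mul_of_pos_right hk1 hmR
    nlinarith

end Pool.Agent.Results.MP_1867c4_co.BipartiteTwo
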